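import Pool.Agent.KS6_40.NS.Reach

/-!
# Numerical semigroups for which `E(S)` is an antichain
-/

set_option autoImplicit false

namespace Pool.Agent.Results.MP_a0aa5b_al.Antichains

open Finset Pool.Agent.H26.NS Pool.Agent.KS6_40.NS
open Pool.Agent.Results.MP_a0aa5b_al.CI (IsExp Pres)

/-- The numerical semigroup `S` minimally generated by the `n i` is a complete intersection: it has
a minimal presentation with one relation less than there are generators. -/
def IsCI {k : ℕ} (n : Fin k → ℕ) : Prop :=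
  ∃ ρ, Pres n ρ ∧ (∀ σ ⊂ ρ, ¬ Pres n σ) ∧ ρ.card + 1 = k

/-- All generators can be reached from one of them, if there is an arrow from `j` to `i` whenever
some `d ∈ D` is divisible by `n i` and has a factorization in which `n j` occurs. -/
def Reachable {k : ℕ} (n : Fin k → ℕ) (D : Finset ℕ) : Prop :=
  ∃ k0 : Fin k, ∀ i, Relation.ReflTransGen (fun j i : Fin k =>
    ∃ d ∈ D, n i ∣ d ∧ ∃ w : Fin k → ℕ, ph n w = d ∧ w j ≠ 0) k0 i

/-- Some generator occurs in a factorization of every element of `D`. -/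
def CommonGenerator {k : ℕ} (n : Fin k → ℕ) (D : Finset ℕ) : Prop :=
  ∃ k0 : Fin k, ∀ d ∈ D, ∃ w : Fin k → ℕ, ph n w = d ∧ w k0 ≠ 0

/-- the factorizations of `d` which are not a multiple of one generator -/
def Mixed {k : ℕ} (n : Fin k → ℕ) (d : ℕ) : Set (Fin k → ℕ) :=
  {w | ph n w = d ∧ ¬ ∃ i c, w = Pi.single i c}

section

variable {k : ℕ} {n : Fin k → ℕ}

theorem unique_div {D : Finset ℕ}
    (hanti : ∀ a ∈ D, ∀ b ∈ D, a ≠ b → ¬ ∃ s ∈ Set.range (ph n), b = a + s) (i : Fin k) (a : ℕ)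
    (ha : a ∈ D) (b : ℕ) (hb : b ∈ D) (h1 : n i ∣ a) (h2 : n i ∣ b) : a = b := by
  by_contra hab
  rcases Nat.lt_or_gt_of_ne hab with h | h
  · obtain ⟨c, hc⟩ := Nat.dvd_sub h2 h1
    exact hanti a ha b hb hab ⟨ph n (Pi.single i c), ⟨_, rfl⟩, by
      rw [ph_single, mul_comm, ← hc]; omega⟩
  · obtain ⟨c, hc⟩ := Nat.dvd_sub h1 h2
    exact hanti b hb a ha (Ne.symm hab) ⟨ph n (Pi.single i c), ⟨_, rfl⟩, by
      rw [ph_single, mul_comm, ← hc]; omega⟩

theorem mixed_card {D : Finset ℕ} {α : ℕ → ℕ} {Z : ℕ → Finset (Fin k → ℕ)} (F : Facts n D α Z)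
    (h0 : ∀ i, n i ≠ 0)
    (hanti : ∀ a ∈ D, ∀ b ∈ D, a ≠ b → ¬ ∃ s ∈ Set.range (ph n), b = a + s) (hD : D.Nonempty) :
    ∑ d ∈ D, (Mixed n d).ncard + 1 = D.card := by
  classical
  have h1 : ∀ d ∈ D, (Mixed n d).ncard + (univ.filter fun i => n i ∣ d).card = α d + 1 := by
    intro d hd
    have hsub := pure_sub (F.mem d hd)
    have e : Mixed n d = ((Z d \ ((univ.filter fun i => n i ∣ d).image fun i =>
        (Pi.single i (d / n i) : Fin k → ℕ)) : Finset (Fin k → ℕ)) : Set (Fin k → ℕ)) := by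
      ext w
      rw [mem_coe, mem_sdiff, F.mem d hd]
      show (ph n w = d ∧ ¬ ∃ i c, w = Pi.single i c) ↔ _
      refine and_congr_right fun hw => not_congr ?_
      rw [mem_image]
      constructor
      · rintro ⟨i, c, rfl⟩
        rw [ph_single] at hw
        refine ⟨i, mem_filter.2 ⟨mem_univ _, Dvd.intro_left _ hw⟩, ?_⟩
        rw [← hw, Nat.mul_div_cancel _ (Nat.pos_of_ne_zero (h0 i))]
      · rintro ⟨i, -, rfl⟩
        exact ⟨i, _, rfl⟩
    rw [e, Set.ncard_coe_finset, ← pure_card (n := n) (F.ne d hd), card_sdiff_add_card_eq_card hsub,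
      F.card d hd]
  have h2 : ∑ d ∈ D, (univ.filter fun i => n i ∣ d).card = k := by
    have h3 : ∑ d ∈ D, (univ.filter fun i => n i ∣ d).card =
        ∑ i : Fin k, (D.filter fun d => n i ∣ d).card := by
      simp only [card_filter]
      exact sum_comm
    rw [h3]
    have h4 : ∀ i : Fin k, (D.filter fun d => n i ∣ d).card = 1 := by
      intro i
      rw [card_eq_one]
      obtain ⟨d, hd, hid⟩ : ∃ d ∈ D, n i ∣ d := by
        rcases F.dvd i with h | h
        · obtain ⟨d, hd⟩ := hD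
          exact ⟨d, hd, h ▸ one_dvd d⟩
        · exact h
      refine ⟨d, ?_⟩
      ext b
      rw [mem_filter, mem_singleton]
      constructor
      · rintro ⟨hb, h⟩
        exact unique_div hanti i b hb d hd h hid
      · rintro rfl
        exact ⟨hd, hid⟩
    rw [sum_congr rfl fun i _ => h4 i]
    simp
  have h3 := sum_congr rfl h1
  rw [sum_add_distrib, h2, sum_add_distrib, ← card_eq_sum_ones] at h3
  have h4 := F.sum
  omega

end

/-- Let `S` be a numerical semigroup with minimal generators `n 0, …, n (k - 1)` and exponent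
sequence `e`, for which `E(S) = D` is an antichain for `≤_S`, of any size.
(1) `D` is the set of the minimal elements with more than one factorization, `d ∈ D` has exactly
`e d + 1` factorizations, `k = 1 + ∑ e d`, `∏ n i = ∏ d ^ (e d)`, every generator other than
`1` divides exactly one element of `D`, and exactly `|D| - 1` of the factorizations of the elements
of `D` are not multiples of one generator.
(2) If all generators can be reached from one of them (`Reachable`), then `S` is a complete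
intersection; in particular if some generator occurs in a factorization of every `d ∈ D`.
(3) If `D` has at most two elements, then there is such a generator, and `S` is a complete
intersection. -/
theorem result {k : ℕ} (n : Fin k → ℕ) (hmin : ∀ i w, ph n w = n i → w i ≠ 0)
    (hfin : {s | s ∉ Set.range (ph n)}.Finite) (e : ℕ → ℤ) (he : IsExp (Set.range (ph n)) e)
    (D : Finset ℕ) (hE : {d | 2 ≤ d ∧ e d ≠ 0 ∧ d ∉ Set.range n} = (D : Set ℕ))
    (hanti : ∀ a ∈ D, ∀ b ∈ D, a ≠ b → ¬ ∃ s ∈ Set.range (ph n), b = a + s) :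
    ((∀ d, d ∈ D ↔ MinT n d) ∧
      (∀ d ∈ D, 0 < e d ∧ {w | ph n w = d}.Finite ∧ ({w | ph n w = d}.ncard : ℤ) = e d + 1) ∧
      (k : ℤ) = 1 + ∑ d ∈ D, e d ∧ ∏ i, n i = ∏ d ∈ D, d ^ (e d).toNat ∧
      (∀ i, n i = 1 ∨ ∃ d ∈ D, n i ∣ d) ∧
      (∀ i, ∀ a ∈ D, ∀ b ∈ D, n i ∣ a → n i ∣ b → a = b) ∧
      (D.Nonempty → ∑ d ∈ D, (Mixed n d).ncard + 1 = D.card)) ∧
    ((Reachable n D → IsCI n) ∧ (CommonGenerator n D → IsCI n)) ∧
    (D.card ≤ 2 → CommonGenerator n D ∧ IsCI n) := by
  obtain ⟨α, Z, F, hα⟩ := factsOf hmin hfin e he D hE hanti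
  obtain ⟨h0, -⟩ := basic hmin
  refine ⟨⟨F.min, fun d hd => ?_, ?_, ?_, F.dvd, fun i a ha b hb => unique_div hanti i a ha b hb,
    mixed_card F h0 hanti⟩, ⟨fun ⟨k0, h⟩ => finishReach h0 hfin F k0 h,
    fun ⟨k0, h⟩ => finish h0 hfin F k0 h⟩, fun h => ?_⟩
  · have h1 : {w | ph n w = d} = (Z d : Set (Fin k → ℕ)) := by
      ext w
      rw [mem_coe, F.mem d hd]
      rfl
    have h2 := F.pos d hd
    rw [hα d hd]
    refine ⟨by omega, ?_, ?_⟩
    · rw [h1]; exact finite_toSet _
    · rw [h1, Set.ncard_coe_finset, F.card d hd]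
      push_cast
      rfl
  · have h1 := F.sum
    rw [sum_congr rfl hα]
    have h2 : ((k : ℕ) : ℤ) = ((∑ d ∈ D, α d + 1 : ℕ) : ℤ) := congrArg _ h1
    rw [h2]
    push_cast
    ring
  · rw [F.prod]
    exact prod_congr rfl fun d hd => by rw [hα d hd]; rfl
  · obtain ⟨k0, h1⟩ := common F h
    exact ⟨⟨k0, h1⟩, finish h0 hfin F k0 h1⟩

end Pool.Agent.Results.MP_a0aa5b_al.Antichains
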